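import Mathlib
import Pool.Agent.K4W.StmtsA
import Pool.Agent.Helper37_HUA.Stp
import Pool.Agent.Helper85_HUA.Rtp

/-!
# Squad K4W, row APO (helper27): odd prime powers.
-/

set_option autoImplicit false

namespace Pool.Agent.K4W.H27

open Pool.Agent.Helper69_Weyl (ee W norm_ee ee_add)
open Pool.Agent.VM (Sc)
open Pool.Agent.VM.H37 (sum_split ee_add_int)

/-- the number of critical points -/
theorem crit_card (rtp : VM.RtpStmt) (p r : ℕ) (b m : ℤ) (hp : p.Prime) (hp5 : 5 ≤ p) (hr : 1 ≤ r)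
    (hb : ¬ (p : ℤ) ∣ b) (hm : ¬ (p : ℤ) ∣ m) :
    ((Finset.range (p ^ r)).filter
      (fun y : ℕ => ((p : ℤ) ^ r) ∣ 4 * b * (y : ℤ) ^ 3 + m)).card ≤ 27 := by
  have hpp : Prime (p : ℤ) := Nat.prime_iff_prime_int.1 hp
  have h4 : ¬ (p : ℤ) ∣ 4 := by
    intro hd
    have := Int.le_of_dvd (by norm_num) hd
    omega
  have hkb : ¬ (p : ℤ) ∣ 4 * b := fun hd => (hpp.dvd_or_dvd hd).elim h4 hb
  have hcop : IsCoprime (4 * b) ((p : ℤ) ^ r) := by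
    apply IsCoprime.pow_right
    exact (Prime.coprime_iff_not_dvd hpp).2 hkb |>.symm
  obtain ⟨u, v, huv⟩ := hcop
  have hcp : ¬ (p : ℤ) ∣ -(u * m) := by
    intro hd
    rw [dvd_neg] at hd
    rcases hpp.dvd_or_dvd hd with hd | hd
    · apply hpp.not_dvd_one
      rw [← huv]
      exact dvd_add (Dvd.dvd.mul_right hd _)
        (Dvd.dvd.mul_left (dvd_pow_self _ (by omega : r ≠ 0)) _)
    · exact hm hd
  refine (Finset.card_le_card ?_).trans (rtp p 3 r (-(u * m)) hp (by norm_num) hcp)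
  intro y hy
  rw [Finset.mem_filter] at hy ⊢
  refine ⟨hy.1, ?_⟩
  have h6 : (y : ℤ) ^ 3 - -(u * m) =
      u * (4 * b * (y : ℤ) ^ 3 + m) + (v * (y : ℤ) ^ 3) * (p : ℤ) ^ r := by
    linear_combination (-(y : ℤ) ^ 3) * huv
  rw [h6]
  exact dvd_add (Dvd.dvd.mul_left hy.2 _) (Dvd.intro_left _ rfl)

/-- the terms near a critical point -/
theorem term_eq (p r : ℕ) (b m j : ℤ) (hp : 0 < p) (hr : 1 ≤ r) (y z : ℕ)
    (hj : 4 * b * (y : ℤ) ^ 3 + m = (p : ℤ) ^ r * j) :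
    ee (((b * ((y + p ^ r * z : ℕ) : ℤ) ^ 4 + m * ((y + p ^ r * z : ℕ) : ℤ) : ℤ) : ℝ) /
        ((p ^ (2 * r + 1) : ℕ) : ℝ)) =
      ee (((b * (y : ℤ) ^ 4 + m * (y : ℤ) : ℤ) : ℝ) / ((p ^ (2 * r + 1) : ℕ) : ℝ)) *
        ee ((((6 * b * (y : ℤ) ^ 2) * (z : ℤ) ^ 2 + j * (z : ℤ) : ℤ) : ℝ) / (p : ℝ)) := by
  obtain ⟨s, rfl⟩ : ∃ s, r = s + 1 := ⟨r - 1, by omega⟩
  have hm : m = (p : ℤ) ^ (s + 1) * j - 4 * b * (y : ℤ) ^ 3 := by linarith
  have h2 : (b * ((y + p ^ (s + 1) * z : ℕ) : ℤ) ^ 4 + m * ((y + p ^ (s + 1) * z : ℕ) : ℤ) : ℤ) =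
      (b * (y : ℤ) ^ 4 + m * (y : ℤ)) +
        (p : ℤ) ^ (2 * (s + 1)) * ((6 * b * (y : ℤ) ^ 2) * (z : ℤ) ^ 2 + j * (z : ℤ)) +
        (p : ℤ) ^ (2 * (s + 1) + 1) * ((p : ℤ) ^ s * (4 * b * (y : ℤ) * (z : ℤ) ^ 3 +
          (p : ℤ) ^ (s + 1) * b * (z : ℤ) ^ 4)) := by
    push_cast
    rw [hm]
    ring
  rw [h2, ← ee_add]
  have hp0 : (p : ℝ) ≠ 0 := by exact_mod_cast hp.ne'
  have h3 : ((((b * (y : ℤ) ^ 4 + m * (y : ℤ)) +
        (p : ℤ) ^ (2 * (s + 1)) * ((6 * b * (y : ℤ) ^ 2) * (z : ℤ) ^ 2 + j * (z : ℤ)) +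
        (p : ℤ) ^ (2 * (s + 1) + 1) * ((p : ℤ) ^ s * (4 * b * (y : ℤ) * (z : ℤ) ^ 3 +
          (p : ℤ) ^ (s + 1) * b * (z : ℤ) ^ 4)) : ℤ) : ℝ)) / ((p ^ (2 * (s + 1) + 1) : ℕ) : ℝ) =
      (((b * (y : ℤ) ^ 4 + m * (y : ℤ) : ℤ) : ℝ) / ((p ^ (2 * (s + 1) + 1) : ℕ) : ℝ) +
        (((6 * b * (y : ℤ) ^ 2) * (z : ℤ) ^ 2 + j * (z : ℤ) : ℤ) : ℝ) / (p : ℝ)) +
        (((p : ℤ) ^ s * (4 * b * (y : ℤ) * (z : ℤ) ^ 3 +
          (p : ℤ) ^ (s + 1) * b * (z : ℤ) ^ 4) : ℤ) : ℝ) := by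
    push_cast
    field_simp
    ring
  rw [h3, ee_add_int]

theorem apo (ags : AgsStmt) : ApoStmt := by
  classical
  intro p r b m hp hp5 hr hb hm
  have hp0 : 0 < p := hp.pos
  have hpp : Prime (p : ℤ) := Nat.prime_iff_prime_int.1 hp
  have h1 := VM.H37.stp 4 p (2 * r + 1) r b m (by norm_num) hp0 (by omega)
  have he : 2 * r + 1 - r = r + 1 := by omega
  rw [he] at h1
  obtain ⟨P, hP⟩ : ∃ P : ℕ → Prop, P = fun y : ℕ => ((p : ℤ) ^ r) ∣ 4 * b * (y : ℤ) ^ 3 + m :=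
    ⟨_, rfl⟩
  obtain ⟨T, hT⟩ : ∃ T : ℕ → ℂ, T = fun y : ℕ =>
      ee (((b * (y : ℤ) ^ 4 + m * (y : ℤ) : ℤ) : ℝ) / ((p ^ (2 * r + 1) : ℕ) : ℝ)) := ⟨_, rfl⟩
  have h2 : Sc 4 (p ^ (2 * r + 1)) b m = (p : ℂ) ^ r *
      ∑ y ∈ (Finset.range (p ^ (r + 1))).filter P, T y := by
    rw [h1, hP, hT]
    congr 1
    refine Finset.sum_congr ?_ fun _ _ => rfl
    ext y
    simp only [Finset.mem_filter]
    norm_num
  have hper : ∀ y z : ℕ, P (y + p ^ r * z) ↔ P y := by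
    intro y z
    rw [hP]
    show ((p : ℤ) ^ r) ∣ 4 * b * ((y + p ^ r * z : ℕ) : ℤ) ^ 3 + m ↔
      ((p : ℤ) ^ r) ∣ 4 * b * (y : ℤ) ^ 3 + m
    have h3 : 4 * b * ((y + p ^ r * z : ℕ) : ℤ) ^ 3 + m = (4 * b * (y : ℤ) ^ 3 + m) +
        (p : ℤ) ^ r * (4 * b * (3 * (y : ℤ) ^ 2 * (z : ℤ) + 3 * (y : ℤ) * (p : ℤ) ^ r * (z : ℤ) ^ 2 +
          (p : ℤ) ^ r * (p : ℤ) ^ r * (z : ℤ) ^ 3)) := by
      push_cast
      ring
    rw [h3]
    exact dvd_add_left (Dvd.intro _ rfl)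
  have h4 : ∑ y ∈ (Finset.range (p ^ (r + 1))).filter P, T y =
      ∑ y ∈ (Finset.range (p ^ r)).filter P, ∑ z ∈ Finset.range p, T (y + p ^ r * z) := by
    rw [Finset.sum_filter, pow_succ, sum_split _ _ (pow_pos hp0 r), Finset.sum_filter]
    refine Finset.sum_congr rfl fun y _ => ?_
    by_cases hy : P y
    · rw [if_pos hy]
      refine Finset.sum_congr rfl fun z _ => ?_
      rw [if_pos ((hper y z).2 hy)]
    · rw [if_neg hy]
      refine Finset.sum_eq_zero fun z _ => ?_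
      rw [if_neg (fun h => hy ((hper y z).1 h))]
  have hin : ∀ y, P y → ‖∑ z ∈ Finset.range p, T (y + p ^ r * z)‖ = √(p : ℝ) := by
    intro y hy
    rw [hP] at hy
    obtain ⟨j, hj⟩ := hy
    have h5 : ∀ z ∈ Finset.range p, T (y + p ^ r * z) =
        T y * ee ((((6 * b * (y : ℤ) ^ 2) * (z : ℤ) ^ 2 + j * (z : ℤ) : ℤ) : ℝ) / (p : ℝ)) := by
      intro z _
      rw [hT]
      exact term_eq p r b m j hp0 hr y z hj
    rw [Finset.sum_congr rfl h5, ← Finset.mul_sum, norm_mul]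
    have h6 : ‖T y‖ = 1 := by
      rw [hT]
      exact norm_ee _
    have h7 := ags p (6 * b * (y : ℤ) ^ 2) j hp (by omega) (by
      intro hd
      rcases hpp.dvd_or_dvd hd with hd | hd
      · rcases hpp.dvd_or_dvd hd with hd | hd
        · have h6' : (6 : ℤ) = 2 * 3 := by norm_num
          rw [h6'] at hd
          rcases hpp.dvd_or_dvd hd with hd | hd
          · have := Int.le_of_dvd (by norm_num) hd
            omega
          · have := Int.le_of_dvd (by norm_num) hd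
            omega
        · exact hb hd
      · have hy : (p : ℤ) ∣ (y : ℤ) := hpp.dvd_of_dvd_pow hd
        apply hm
        have h8 : m = (p : ℤ) ^ r * j - 4 * b * (y : ℤ) ^ 3 := by linarith
        rw [h8]
        refine dvd_sub (Dvd.dvd.mul_right (dvd_pow_self _ (by omega)) _) ?_
        exact Dvd.dvd.mul_left (Dvd.dvd.pow hy (by norm_num)) _)
    rw [h6, one_mul]
    have h9 := congrArg Real.sqrt h7
    rwa [Real.sqrt_sq (norm_nonneg _)] at h9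
  have hcard : ((Finset.range (p ^ r)).filter P).card ≤ 27 := by
    have := crit_card VM.H85.rtp p r b m hp hp5 hr hb hm
    rw [hP]
    refine le_trans (le_of_eq ?_) this
    congr 1
    ext y
    simp only [Finset.mem_filter]
  have hS : ‖∑ y ∈ (Finset.range (p ^ r)).filter P, ∑ z ∈ Finset.range p, T (y + p ^ r * z)‖ ≤
      27 * √(p : ℝ) := by
    refine (norm_sum_le _ _).trans ?_
    rw [Finset.sum_congr rfl (fun y hy => hin y (Finset.mem_filter.1 hy).2), Finset.sum_const,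
      nsmul_eq_mul]
    refine mul_le_mul_of_nonneg_right ?_ (Real.sqrt_nonneg _)
    exact_mod_cast hcard
  rw [h2, h4, norm_mul, norm_pow, Complex.norm_natCast, mul_pow]
  have hp1 : (0 : ℝ) ≤ p := Nat.cast_nonneg _
  calc ((p : ℝ) ^ r) ^ 2 * ‖∑ y ∈ (Finset.range (p ^ r)).filter P,
        ∑ z ∈ Finset.range p, T (y + p ^ r * z)‖ ^ 2
      ≤ ((p : ℝ) ^ r) ^ 2 * (27 * √(p : ℝ)) ^ 2 := by
        refine mul_le_mul_of_nonneg_left ?_ (by positivity)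
        exact pow_le_pow_left₀ (norm_nonneg _) hS 2
    _ = 729 * (p : ℝ) ^ (2 * r + 1) := by
        rw [mul_pow, Real.sq_sqrt hp1]
        ring

end Pool.Agent.K4W.H27
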