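import Mathlib
import Pool.Agent.K4W.StmtsF

/-!
# Squad K4W, row LAT (helper27): rational approximation with an odd denominator.
-/

set_option autoImplicit false

namespace Pool.Agent.K4W.H27

theorem lat : LatStmt := by
  intro x N D hN hD
  have hND : 0 < N * D := Nat.mul_pos (by omega) (by omega)
  obtain ⟨q, hq1, hq2⟩ := Real.exists_rat_abs_sub_le_and_den_le x hND
  have hNr : (0 : ℝ) < N := by exact_mod_cast (by omega : 0 < N)
  have hDr : (2 : ℝ) ≤ D := by exact_mod_cast hD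
  have hD0 : (0 : ℝ) < D := by linarith
  have hr0 : (0 : ℝ) < (q.den : ℝ) := by exact_mod_cast q.den_pos
  obtain ⟨e, he⟩ : ∃ e : ℝ, e = (q.den : ℝ) * x - (q.num : ℝ) := ⟨_, rfl⟩
  have hqe : (q : ℝ) = (q.num : ℝ) / (q.den : ℝ) := by
    exact_mod_cast (Rat.num_div_den q).symm
  have h1 : |e| ≤ 1 / ((D : ℝ) * (N : ℝ)) := by
    have h2 : e = (q.den : ℝ) * (x - (q : ℝ)) := by
      rw [he, hqe]
      field_simp
    rw [h2, abs_mul, abs_of_pos hr0]
    calc (q.den : ℝ) * |x - (q : ℝ)| ≤ (q.den : ℝ) * (1 / ((((N * D : ℕ) : ℝ) + 1) * (q.den : ℝ))) :=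
          mul_le_mul_of_nonneg_left hq1 hr0.le
      _ = 1 / (((N * D : ℕ) : ℝ) + 1) := by
          field_simp
      _ ≤ 1 / ((D : ℝ) * (N : ℝ)) := by
          apply one_div_le_one_div_of_le (by positivity)
          push_cast
          nlinarith
  by_cases hc : q.den * D ≤ N
  · left
    exact ⟨q.den, q.num, q.den_pos, hc, by rw [← he]; exact h1⟩
  right
  push Not at hc
  have hcop : Int.gcd q.num (q.den : ℤ) = 1 := by
    have := q.reduced
    unfold Nat.Coprime at this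
    simpa [Int.gcd] using this
  have hDN : (1 : ℝ) / ((D : ℝ) * (N : ℝ)) ≤ (D : ℝ) / (2 * (N : ℝ)) := by
    rw [div_le_div_iff₀ (by positivity) (by positivity)]
    nlinarith [mul_pos hD0 hNr, mul_pos hD0 hD0]
  rcases Nat.even_or_odd q.den with hev | hodd
  · have hic : IsCoprime q.num (q.den : ℤ) := Int.isCoprime_iff_gcd_eq_one.2 hcop
    obtain ⟨u, v, huv⟩ := hic
    have hz0 : (0 : ℤ) < (q.den : ℤ) := by exact_mod_cast q.den_pos
    obtain ⟨r₂, hr₂⟩ : ∃ r₂ : ℤ, r₂ = (-u) % (q.den : ℤ) := ⟨_, rfl⟩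
    obtain ⟨w, hw⟩ : ∃ w : ℤ, w = (-u) / (q.den : ℤ) := ⟨_, rfl⟩
    have hdm : (q.den : ℤ) * w + r₂ = -u := by
      rw [hr₂, hw]
      exact Int.mul_ediv_add_emod _ _
    have hr20 : 0 ≤ r₂ := by
      rw [hr₂]
      exact Int.emod_nonneg _ hz0.ne'
    have hr21 : r₂ < (q.den : ℤ) := by
      rw [hr₂]
      exact Int.emod_lt_of_pos _ hz0
    obtain ⟨b₂, hb₂⟩ : ∃ b₂ : ℤ, b₂ = v - q.num * w := ⟨_, rfl⟩
    have hdet : (q.den : ℤ) * b₂ - r₂ * q.num = 1 := by
      rw [hb₂]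
      linear_combination huv - q.num * hdm
    obtain ⟨s, hs⟩ : ∃ s : ℕ, (s : ℤ) = r₂ := ⟨r₂.toNat, Int.toNat_of_nonneg hr20⟩
    have hsodd : Odd s := by
      rw [← Nat.not_even_iff_odd]
      intro hse
      obtain ⟨c, hc'⟩ := hev
      obtain ⟨d, hd⟩ := hse
      have h3 : (q.den : ℤ) = (c : ℤ) + c := by exact_mod_cast hc'
      have h4 : r₂ = (d : ℤ) + d := by rw [← hs]; exact_mod_cast hd
      rw [h3, h4] at hdet
      have h5 : 2 * ((c : ℤ) * b₂ - d * q.num) = 1 := by linear_combination hdet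
      omega
    have hslt : s < q.den := by
      have : (s : ℤ) < (q.den : ℤ) := by rw [hs]; exact hr21
      exact_mod_cast this
    refine ⟨q.den + s, q.num + b₂, hev.add_odd hsodd, ?_, ?_, ?_, ?_⟩
    · calc N < q.den * D := hc
        _ ≤ (q.den + s) * D := Nat.mul_le_mul_right _ (by omega)
    · calc q.den + s ≤ 2 * q.den := by omega
        _ ≤ 2 * (N * D) := Nat.mul_le_mul_left _ hq2
        _ = 2 * N * D := by ring
    · rw [← Int.isCoprime_iff_gcd_eq_one]
      refine ⟨(q.den : ℤ), -q.num, ?_⟩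
      push_cast
      rw [hs]
      linear_combination hdet
    · have hdr : (q.den : ℝ) * (b₂ : ℝ) - (s : ℝ) * (q.num : ℝ) = 1 := by
        have : (q.den : ℤ) * b₂ - (s : ℤ) * q.num = 1 := by rw [hs]; exact hdet
        exact_mod_cast this
      have h6 : ((s : ℝ) * x - (b₂ : ℝ)) = (s : ℝ) / (q.den : ℝ) * e - 1 / (q.den : ℝ) := by
        rw [he]
        field_simp
        linear_combination (-1 : ℝ) * hdr
      have h7 : (s : ℝ) / (q.den : ℝ) ≤ 1 := by
        rw [div_le_one hr0]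
        exact_mod_cast hslt.le
      have h8 : |(s : ℝ) * x - (b₂ : ℝ)| ≤ |e| + (D : ℝ) / (N : ℝ) := by
        rw [h6]
        refine (abs_sub _ _).trans ?_
        rw [abs_mul, abs_of_nonneg (by positivity : (0 : ℝ) ≤ (s : ℝ) / (q.den : ℝ)),
          abs_of_pos (by positivity : (0 : ℝ) < 1 / (q.den : ℝ))]
        have h9 : (s : ℝ) / (q.den : ℝ) * |e| ≤ 1 * |e| :=
          mul_le_mul_of_nonneg_right h7 (abs_nonneg _)
        have h10 : 1 / (q.den : ℝ) ≤ (D : ℝ) / (N : ℝ) := by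
          rw [div_le_div_iff₀ hr0 hNr]
          have : (N : ℝ) < (q.den : ℝ) * (D : ℝ) := by exact_mod_cast hc
          linarith
        linarith
      have h11 : (((q.den + s : ℕ) : ℝ)) * x - (((q.num + b₂ : ℤ)) : ℝ) =
          e + ((s : ℝ) * x - (b₂ : ℝ)) := by
        rw [he]
        push_cast
        ring
      rw [h11]
      refine (abs_add_le _ _).trans ?_
      have h12 : (D : ℝ) / (2 * (N : ℝ)) = (1 / 2) * ((D : ℝ) / (N : ℝ)) := by
        field_simp
      have h13 : 2 * (D : ℝ) / (N : ℝ) = 2 * ((D : ℝ) / (N : ℝ)) := by ring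
      rw [h13]
      rw [h12] at hDN
      linarith
  · refine ⟨q.den, q.num, hodd, hc, ?_, hcop, ?_⟩
    · calc q.den ≤ N * D := hq2
        _ ≤ 2 * N * D := by nlinarith
    · rw [← he]
      refine h1.trans (hDN.trans ?_)
      rw [div_le_div_iff₀ (by positivity) hNr]
      nlinarith [mul_pos hD0 hNr]

end Pool.Agent.K4W.H27
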