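import Mathlib
import Pool.Agent.K4W.StmtsP

/-!
# Squad K4W, row PRG (helper27): Poisson summation in a progression.
-/

set_option autoImplicit false

namespace Pool.Agent.K4W.H27

open Complex
open Pool.Agent.Helper69_Weyl (ee W)

theorem cpow_half (A : ℂ) (hA : A ≠ 0) (r : ℕ) (hr : 0 < r) :
    (A * (r : ℂ) ^ 2) ^ (1 / 2 : ℂ) = (r : ℂ) * A ^ (1 / 2 : ℂ) := by
  have hr0 : (0 : ℝ) < r := by exact_mod_cast hr
  have hrc : (r : ℂ) ≠ 0 := by exact_mod_cast hr.ne'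
  have h1 : A * (r : ℂ) ^ 2 = (((r : ℝ) ^ 2 : ℝ) : ℂ) * A := by
    push_cast
    ring
  have h2 : (0 : ℝ) < (r : ℝ) ^ 2 := by positivity
  rw [h1, cpow_def_of_ne_zero (mul_ne_zero (by exact_mod_cast h2.ne') hA),
    cpow_def_of_ne_zero hA, log_ofReal_mul h2 hA, Real.log_pow]
  have h3 : ((((2 : ℕ) : ℝ) * Real.log r : ℝ) : ℂ) = 2 * ((Real.log r : ℝ) : ℂ) := by
    push_cast
    ring
  rw [h3]
  have h4 : (2 * ((Real.log r : ℝ) : ℂ) + log A) * (1 / 2) =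
      ((Real.log r : ℝ) : ℂ) + log A * (1 / 2) := by ring
  rw [h4, exp_add, ← ofReal_exp, Real.exp_log hr0]
  push_cast
  rfl

theorem prg : PrgStmt := by
  intro A r c hA hr
  have hr0 : (0 : ℝ) < r := by exact_mod_cast hr
  have hrc : (r : ℂ) ≠ 0 := by exact_mod_cast hr.ne'
  have hA0 : A ≠ 0 := by
    rintro rfl
    simp at hA
  have ha : 0 < (A * (r : ℂ) ^ 2).re := by
    have h1 : A * (r : ℂ) ^ 2 = (((r : ℝ) ^ 2 : ℝ) : ℂ) * A := by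
      push_cast
      ring
    rw [h1, re_ofReal_mul]
    positivity
  have key := Complex.tsum_exp_neg_quadratic ha (-(A * (c : ℂ) * (r : ℂ)))
  have hL : ∀ k : ℤ, cexp (-((Real.pi : ℂ) * A * ((c : ℂ) + (r : ℂ) * (k : ℂ)) ^ 2)) =
      cexp (-((Real.pi : ℂ) * A * (c : ℂ) ^ 2)) *
        cexp (-(Real.pi : ℂ) * (A * (r : ℂ) ^ 2) * (k : ℂ) ^ 2 +
          2 * (Real.pi : ℂ) * (-(A * (c : ℂ) * (r : ℂ))) * (k : ℂ)) := by
    intro k
    rw [← exp_add]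
    congr 1
    ring
  have hR : ∀ m : ℤ, cexp (-((Real.pi : ℂ) * A * (c : ℂ) ^ 2)) *
      cexp (-(Real.pi : ℂ) / (A * (r : ℂ) ^ 2) * ((m : ℂ) + I * (-(A * (c : ℂ) * (r : ℂ)))) ^ 2) =
      ee (((m * c : ℤ) : ℝ) / (r : ℝ)) *
        cexp (-((Real.pi : ℂ) * (m : ℂ) ^ 2 / ((r : ℂ) ^ 2 * A))) := by
    intro m
    unfold ee
    rw [← exp_add, ← exp_add]
    congr 1
    push_cast
    field_simp
    ring_nf
    rw [I_sq]
    ring
  calc ∑' k : ℤ, cexp (-((Real.pi : ℂ) * A * ((c : ℂ) + (r : ℂ) * (k : ℂ)) ^ 2))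
      = ∑' k : ℤ, cexp (-((Real.pi : ℂ) * A * (c : ℂ) ^ 2)) *
        cexp (-(Real.pi : ℂ) * (A * (r : ℂ) ^ 2) * (k : ℂ) ^ 2 +
          2 * (Real.pi : ℂ) * (-(A * (c : ℂ) * (r : ℂ))) * (k : ℂ)) := tsum_congr hL
    _ = cexp (-((Real.pi : ℂ) * A * (c : ℂ) ^ 2)) *
        (1 / (A * (r : ℂ) ^ 2) ^ (1 / 2 : ℂ) * ∑' m : ℤ,
          cexp (-(Real.pi : ℂ) / (A * (r : ℂ) ^ 2) *
            ((m : ℂ) + I * (-(A * (c : ℂ) * (r : ℂ)))) ^ 2)) := by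
        rw [tsum_mul_left, key]
    _ = (1 / (r : ℂ)) * A ^ (-(1 / 2) : ℂ) * ∑' m : ℤ,
          (cexp (-((Real.pi : ℂ) * A * (c : ℂ) ^ 2)) *
            cexp (-(Real.pi : ℂ) / (A * (r : ℂ) ^ 2) *
              ((m : ℂ) + I * (-(A * (c : ℂ) * (r : ℂ)))) ^ 2)) := by
        rw [tsum_mul_left, cpow_half A hA0 r hr, cpow_neg]
        field_simp
    _ = _ := by
        congr 1
        exact tsum_congr hR

end Pool.Agent.K4W.H27
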