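import Mathlib
import Pool.Agent.K4W.StmtsV

/-!
# Squad K4W, row RED (helper27): approximation of `m t`.
-/

set_option autoImplicit false

namespace Pool.Agent.K4W.H27

theorem red : RedStmt := by
  intro m Q a t hm hQ hg ht
  have hQz : (0 : ℤ) < (Q : ℤ) := by exact_mod_cast (by omega : 0 < Q)
  have hmz : (0 : ℤ) < (m : ℤ) := by exact_mod_cast (by omega : 0 < m)
  have hgpos : 0 < Int.gcd ((m : ℤ) * a) (Q : ℤ) := Int.gcd_pos_of_ne_zero_right _ hQz.ne'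
  obtain ⟨a', n', h1, h2, h3⟩ := Int.exists_gcd_one hgpos
  obtain ⟨g, hgd⟩ : ∃ g : ℕ, g = Int.gcd ((m : ℤ) * a) (Q : ℤ) := ⟨_, rfl⟩
  rw [← hgd] at h2 h3 hgpos
  have hgz : (0 : ℤ) < (g : ℤ) := by exact_mod_cast hgpos
  have hn' : 0 < n' := by
    by_contra hn
    push Not at hn
    have : n' * (g : ℤ) ≤ 0 := mul_nonpos_of_nonpos_of_nonneg hn hgz.le
    omega
  obtain ⟨Q', hQ'⟩ : ∃ Q' : ℕ, (Q' : ℤ) = n' := ⟨n'.toNat, Int.toNat_of_nonneg hn'.le⟩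
  have hQ1 : 1 ≤ Q' := by
    have : (0 : ℤ) < (Q' : ℤ) := by rw [hQ']; exact hn'
    exact_mod_cast this
  have h3' : Q = Q' * g := by
    have : (Q : ℤ) = (Q' : ℤ) * (g : ℤ) := by rw [hQ']; exact h3
    exact_mod_cast this
  have hle : Q' ≤ Q := by
    rw [h3']
    exact Nat.le_mul_of_pos_right _ hgpos
  have hgm : g ≤ m := by
    have hcop : IsCoprime a (Q : ℤ) := Int.isCoprime_iff_gcd_eq_one.2 hg
    have hgQ : (g : ℤ) ∣ (Q : ℤ) := ⟨n', by rw [h3]; ring⟩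
    have hcop2 : IsCoprime (g : ℤ) a := (IsCoprime.of_isCoprime_of_dvd_right hcop hgQ).symm
    have hdv : (g : ℤ) ∣ (m : ℤ) * a := ⟨a', by rw [h2]; ring⟩
    have hdm : (g : ℤ) ∣ (m : ℤ) := hcop2.dvd_of_dvd_mul_right hdv
    have := Int.le_of_dvd hmz hdm
    exact_mod_cast this
  refine ⟨a', Q', hQ1, hle, ?_, ?_, ?_⟩
  · rw [h3', mul_comm Q' g]
    exact Nat.mul_le_mul_right _ hgm
  · rw [hQ']
    exact h1
  · have hQr : (0 : ℝ) < (Q : ℝ) := by exact_mod_cast (by omega : 0 < Q)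
    have hQr' : (0 : ℝ) < (Q' : ℝ) := by exact_mod_cast (by omega : 0 < Q')
    have hgr : (0 : ℝ) < (g : ℝ) := by exact_mod_cast hgpos
    have hmr : (0 : ℝ) ≤ (m : ℝ) := Nat.cast_nonneg m
    have e1 : (Q : ℝ) = (Q' : ℝ) * (g : ℝ) := by exact_mod_cast h3'
    have e2 : (m : ℝ) * (a : ℝ) = (a' : ℝ) * (g : ℝ) := by exact_mod_cast h2
    have e3 : (a' : ℝ) / (Q' : ℝ) = (m : ℝ) * ((a : ℝ) / (Q : ℝ)) := by
      rw [← mul_div_assoc, e2, e1]
      field_simp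
    rw [e3, ← mul_sub, abs_mul, abs_of_nonneg hmr]
    calc (m : ℝ) * |t - (a : ℝ) / (Q : ℝ)| * (Q' : ℝ)
        ≤ (m : ℝ) * (1 / (Q : ℝ) ^ 2) * (Q : ℝ) := by
          refine mul_le_mul (mul_le_mul_of_nonneg_left ht hmr) ?_ hQr'.le (by positivity)
          exact_mod_cast hle
      _ = (m : ℝ) / (Q : ℝ) := by
          field_simp

end Pool.Agent.K4W.H27
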