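import Mathlib
import Pool.Agent.K4W.StmtsU

/-!
# Squad K4W, row UGA (helper27): sum of a Gaussian over a progression.
-/

set_option autoImplicit false

namespace Pool.Agent.K4W.H27

theorem exp_pi_le : Real.exp Real.pi ≤ 55 := by
  have h1 : Real.exp Real.pi ≤ Real.exp 4 := Real.exp_le_exp.2 Real.pi_le_four
  have h2 : Real.exp 4 = (Real.exp 1) ^ 4 := by
    rw [← Real.exp_nat_mul]
    norm_num
  have h3 : (Real.exp 1) ^ 4 ≤ (2.7182818286 : ℝ) ^ 4 :=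
    pow_le_pow_left₀ (Real.exp_pos _).le Real.exp_one_lt_d9.le 4
  have h4 : (2.7182818286 : ℝ) ^ 4 ≤ 55 := by norm_num
  linarith

theorem ga_nonneg (N : ℕ) (x : ℝ) : 0 ≤ ga N x := (Real.exp_pos _).le

theorem ga_le (N : ℕ) (hN : 1 ≤ N) (x : ℝ) (j : ℕ) (hj : (j : ℝ) ≤ |x|) :
    ga N x ≤ 55 * (Real.exp (-(2 * Real.pi / (N : ℝ)))) ^ j := by
  have hN0 : (0 : ℝ) < N := by exact_mod_cast (by omega : 0 < N)
  have hpi := Real.pi_pos
  have h1 : -(Real.pi * x ^ 2 / (N : ℝ) ^ 2) ≤ Real.pi + (j : ℝ) * -(2 * Real.pi / (N : ℝ)) := by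
    have h2 : x ^ 2 / (N : ℝ) ^ 2 ≥ 2 * (|x| / (N : ℝ)) - 1 := by
      have h3 : x ^ 2 / (N : ℝ) ^ 2 = (|x| / (N : ℝ)) ^ 2 := by
        rw [div_pow, sq_abs]
      rw [h3]
      nlinarith [sq_nonneg (|x| / (N : ℝ) - 1)]
    have h4 : (j : ℝ) / (N : ℝ) ≤ |x| / (N : ℝ) := div_le_div_of_nonneg_right hj hN0.le
    have h5 : Real.pi * x ^ 2 / (N : ℝ) ^ 2 = Real.pi * (x ^ 2 / (N : ℝ) ^ 2) := by ring
    have h6 : (j : ℝ) * -(2 * Real.pi / (N : ℝ)) = -(Real.pi * (2 * ((j : ℝ) / (N : ℝ)))) := by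
      ring
    rw [h5, h6]
    have h7 : Real.pi * (2 * ((j : ℝ) / (N : ℝ)) - 1) ≤ Real.pi * (x ^ 2 / (N : ℝ) ^ 2) :=
      mul_le_mul_of_nonneg_left (by linarith) hpi.le
    linarith
  unfold ga
  calc Real.exp (-(Real.pi * x ^ 2 / (N : ℝ) ^ 2))
      ≤ Real.exp (Real.pi + (j : ℝ) * -(2 * Real.pi / (N : ℝ))) := Real.exp_le_exp.2 h1
    _ = Real.exp Real.pi * (Real.exp (-(2 * Real.pi / (N : ℝ)))) ^ j := by
        rw [Real.exp_add, Real.exp_nat_mul]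
    _ ≤ 55 * (Real.exp (-(2 * Real.pi / (N : ℝ)))) ^ j :=
        mul_le_mul_of_nonneg_right exp_pi_le (pow_nonneg (Real.exp_pos _).le _)

theorem geo_le (N : ℕ) (hN : 1 ≤ N) :
    (1 - Real.exp (-(2 * Real.pi / (N : ℝ))))⁻¹ ≤ 1 + (N : ℝ) / 6 := by
  have hN0 : (0 : ℝ) < N := by exact_mod_cast (by omega : 0 < N)
  have hpi := Real.pi_gt_three
  obtain ⟨y, hy⟩ : ∃ y : ℝ, y = 2 * Real.pi / (N : ℝ) := ⟨_, rfl⟩
  have hy0 : 0 < y := by rw [hy]; positivity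
  have hy6 : 6 / (N : ℝ) ≤ y := by
    rw [hy]
    exact div_le_div_of_nonneg_right (by linarith) hN0.le
  rw [← hy]
  have h1 : 1 + y ≤ Real.exp y := by
    have := Real.add_one_le_exp y
    linarith
  have h2 : Real.exp (-y) ≤ 1 / (1 + y) := by
    rw [Real.exp_neg, ← one_div]
    exact one_div_le_one_div_of_le (by linarith) h1
  have h3 : y / (1 + y) ≤ 1 - Real.exp (-y) := by
    have : y / (1 + y) = 1 - 1 / (1 + y) := by
      field_simp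
      ring
    rw [this]
    linarith
  have h4 : 0 < y / (1 + y) := by positivity
  calc (1 - Real.exp (-y))⁻¹ ≤ (y / (1 + y))⁻¹ := inv_anti₀ h4 h3
    _ = 1 + 1 / y := by
        field_simp
        ring
    _ ≤ 1 + (N : ℝ) / 6 := by
        have h5 : 1 / y ≤ 1 / (6 / (N : ℝ)) := one_div_le_one_div_of_le (by positivity) hy6
        have h6 : 1 / (6 / (N : ℝ)) = (N : ℝ) / 6 := by
          field_simp
        linarith

theorem uga_aux (N d : ℕ) (θ : ℝ) (hN : 1 ≤ N) (hd : 1 ≤ d) (h0 : 0 ≤ θ) (h1 : θ < d) :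
    (Summable fun s : ℤ => ga N ((d : ℝ) * (s : ℝ) + θ)) ∧
      ∑' s : ℤ, ga N ((d : ℝ) * (s : ℝ) + θ) ≤ 200 * (N : ℝ) := by
  have hN1 : (1 : ℝ) ≤ N := by exact_mod_cast hN
  have hd1 : (1 : ℝ) ≤ d := by exact_mod_cast hd
  have hq0 : 0 ≤ Real.exp (-(2 * Real.pi / (N : ℝ))) := (Real.exp_pos _).le
  have hq1 : Real.exp (-(2 * Real.pi / (N : ℝ))) < 1 := by
    rw [Real.exp_lt_one_iff]
    have : 0 < 2 * Real.pi / (N : ℝ) := by
      have := Real.pi_pos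
      positivity
    linarith
  have hg := (summable_geometric_of_lt_one hq0 hq1).mul_left 55
  have b1 : ∀ n : ℕ, ga N ((d : ℝ) * (((n : ℤ)) : ℝ) + θ) ≤
      55 * (Real.exp (-(2 * Real.pi / (N : ℝ)))) ^ n := by
    intro n
    apply ga_le N hN
    have hn : (0 : ℝ) ≤ n := Nat.cast_nonneg n
    rw [Int.cast_natCast, abs_of_nonneg (by positivity)]
    nlinarith
  have b2 : ∀ n : ℕ, ga N ((d : ℝ) * (((-((n : ℤ) + 1) : ℤ)) : ℝ) + θ) ≤
      55 * (Real.exp (-(2 * Real.pi / (N : ℝ)))) ^ n := by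
    intro n
    apply ga_le N hN
    have hn : (0 : ℝ) ≤ n := Nat.cast_nonneg n
    push_cast
    have h2 : (d : ℝ) * (-((n : ℝ) + 1)) + θ ≤ -(n : ℝ) := by nlinarith
    rw [abs_of_nonpos (by linarith)]
    linarith
  have s1 : Summable fun n : ℕ => ga N ((d : ℝ) * (((n : ℤ)) : ℝ) + θ) :=
    Summable.of_nonneg_of_le (fun n => ga_nonneg _ _) b1 hg
  have s2 : Summable fun n : ℕ => ga N ((d : ℝ) * (((-((n : ℤ) + 1) : ℤ)) : ℝ) + θ) :=
    Summable.of_nonneg_of_le (fun n => ga_nonneg _ _) b2 hg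
  refine ⟨Summable.of_nat_of_neg_add_one (f := fun s : ℤ => ga N ((d : ℝ) * (s : ℝ) + θ)) s1 s2, ?_⟩
  rw [tsum_of_nat_of_neg_add_one (f := fun s : ℤ => ga N ((d : ℝ) * (s : ℝ) + θ)) s1 s2]
  have t1 := s1.tsum_le_tsum b1 hg
  have t2 := s2.tsum_le_tsum b2 hg
  rw [tsum_mul_left, tsum_geometric_of_lt_one hq0 hq1] at t1 t2
  have h3 := geo_le N hN
  have h4 : 55 * (1 - Real.exp (-(2 * Real.pi / (N : ℝ))))⁻¹ ≤ 55 * (1 + (N : ℝ) / 6) :=
    mul_le_mul_of_nonneg_left h3 (by norm_num)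
  linarith

theorem uga : UgaStmt := by
  intro N d θ hN hd
  have hd0 : (0 : ℝ) < d := by exact_mod_cast (by omega : 0 < d)
  obtain ⟨n, hn⟩ : ∃ n : ℤ, n = ⌊θ / (d : ℝ)⌋ := ⟨_, rfl⟩
  have h1 : (n : ℝ) ≤ θ / (d : ℝ) := by rw [hn]; exact Int.floor_le _
  have h2 : θ / (d : ℝ) < (n : ℝ) + 1 := by rw [hn]; exact Int.lt_floor_add_one _
  rw [le_div_iff₀ hd0] at h1
  rw [div_lt_iff₀ hd0] at h2
  obtain ⟨s1, s2⟩ := uga_aux N d (θ - (d : ℝ) * (n : ℝ)) hN hd (by linarith) (by linarith)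
  have e : ∀ s : ℤ, ga N ((d : ℝ) * (s : ℝ) + θ) =
      (fun s : ℤ => ga N ((d : ℝ) * (s : ℝ) + (θ - (d : ℝ) * (n : ℝ)))) (Equiv.addRight n s) := by
    intro s
    simp only [Equiv.coe_addRight]
    congr 1
    push_cast
    ring
  constructor
  · rw [summable_congr e]
    exact (Equiv.addRight n).summable_iff.2 s1
  · rw [tsum_congr e, (Equiv.addRight n).tsum_eq
      (fun s : ℤ => ga N ((d : ℝ) * (s : ℝ) + (θ - (d : ℝ) * (n : ℝ))))]
    exact s2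

end Pool.Agent.K4W.H27
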